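import Mathlib

set_option autoImplicit false

namespace Pool.Agent.H330R3.CantorDiff

open Set Topology Filter Pointwise

/-- the sequence `a` of period two -/
noncomputable def aa (n : ℕ) : ℝ := if n % 2 = 0 then 11/45 else 7/17

noncomputable def lam (n : ℕ) : ℝ := (1 - aa n) / 2

noncomputable def tt (n : ℕ) : ℝ := (∏ i ∈ Finset.range n, (1 - aa i) / 2) * (1 - (1 - aa n) / 2)

theorem aa_add_two (n : ℕ) : aa (n + 2) = aa n := by
  unfold aa
  rw [Nat.add_mod_right]

theorem aa_zero : aa 0 = 11/45 := by simp [aa]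
theorem aa_one : aa 1 = 7/17 := by simp [aa]

theorem aa_mem (n : ℕ) : 0 < aa n ∧ aa n < 1 := by
  unfold aa
  split_ifs <;> norm_num

theorem tt_zero : tt 0 = 28/45 := by
  simp [tt, aa_zero]; norm_num

theorem tt_one : tt 1 = 12/45 := by
  simp [tt, aa_zero, aa_one]; norm_num

theorem tt_add_two (n : ℕ) : tt (n + 2) = (1/9) * tt n := by
  unfold tt
  rw [Finset.prod_range_succ', Finset.prod_range_succ']
  have : ∀ k, aa (k + 1 + 1) = aa k := aa_add_two
  simp only [this, aa_add_two, aa_zero, zero_add, aa_one]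
  ring

theorem tt_nonneg (n : ℕ) : 0 ≤ tt n := by
  unfold tt
  apply mul_nonneg
  · apply Finset.prod_nonneg
    intro i _
    have := aa_mem i
    linarith
  · have := aa_mem n
    linarith

theorem tt_le (n : ℕ) : tt n ≤ (1/2)^n := by
  unfold tt
  have h1 : (∏ i ∈ Finset.range n, (1 - aa i) / 2) ≤ (1/2)^n := by
    calc (∏ i ∈ Finset.range n, (1 - aa i) / 2) ≤ ∏ i ∈ Finset.range n, (1/2 : ℝ) := by
          apply Finset.prod_le_prod
          · intro i _
            have := aa_mem i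
            linarith
          · intro i _
            have := aa_mem i
            linarith
      _ = (1/2)^n := by simp
  have h2 : 0 ≤ (∏ i ∈ Finset.range n, (1 - aa i) / 2) := by
    apply Finset.prod_nonneg
    intro i _
    have := aa_mem i
    linarith
  have h3 : (1 - (1 - aa n) / 2) ≤ 1 := by
    have := aa_mem n
    linarith
  have h4 : 0 ≤ (1 - (1 - aa n) / 2) := by
    have := aa_mem n
    linarith
  calc (∏ i ∈ Finset.range n, (1 - aa i) / 2) * (1 - (1 - aa n) / 2)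
      ≤ (1/2)^n * 1 := mul_le_mul h1 h3 h4 (by positivity)
    _ = (1/2)^n := by ring

theorem summable_geo : Summable (fun n : ℕ => ((1:ℝ)/2)^n) :=
  summable_geometric_of_lt_one (by norm_num) (by norm_num)

/-- sub-sum -/
noncomputable def TT (ε : ℕ → Bool) : ℝ := ∑' n, if ε n = true then tt n else 0

theorem bound (ε : ℕ → Bool) (n : ℕ) : ‖(if ε n = true then tt n else 0)‖ ≤ ((1:ℝ)/2)^n := by
  split_ifs
  · rw [Real.norm_of_nonneg (tt_nonneg n)]; exact tt_le n
  · simp

theorem summ (ε : ℕ → Bool) : Summable (fun n => if ε n = true then tt n else 0) :=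
  Summable.of_norm_bounded summable_geo (bound ε)

theorem TT_rec (ε : ℕ → Bool) :
    TT ε = (if ε 0 = true then 28/45 else 0) + (if ε 1 = true then 12/45 else 0) +
      (1/9) * TT (fun n => ε (n + 2)) := by
  unfold TT
  rw [(summ ε).tsum_eq_zero_add, tt_zero]
  have h1 : Summable (fun n => if ε (n+1) = true then tt (n+1) else 0) :=
    (summable_nat_add_iff 1).2 (summ ε)
  rw [h1.tsum_eq_zero_add, ← tsum_mul_left]
  simp only [zero_add, tt_one]
  have : ∀ n, (if ε (n + 1 + 1) = true then tt (n + 1 + 1) else 0) =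
      1/9 * (if ε (n + 2) = true then tt n else 0) := by
    intro n
    rw [show n + 1 + 1 = n + 2 by rfl, tt_add_two]
    split_ifs <;> simp
  simp only [this]
  ring

theorem TT_continuous : Continuous TT := by
  unfold TT
  apply continuous_tsum (u := fun n : ℕ => ((1:ℝ)/2)^n)
  · intro n
    exact (continuous_of_discreteTopology (f := fun b : Bool => if b = true then tt n else 0)).comp
      (continuous_apply n)
  · exact summable_geo
  · intro n ε
    exact bound ε n

def CC : Set ℝ := Set.range TT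

def SS : Set ℝ := {z : ℝ | ∃ u ∈ CC, ∃ v ∈ CC, z = u - v}

theorem SS_eq : SS = (fun p : (ℕ → Bool) × (ℕ → Bool) => TT p.1 - TT p.2) '' Set.univ := by
  ext z
  constructor
  · rintro ⟨u, ⟨ε, rfl⟩, v, ⟨η, rfl⟩, rfl⟩
    exact ⟨(ε, η), trivial, rfl⟩
  · rintro ⟨⟨ε, η⟩, -, rfl⟩
    exact ⟨_, ⟨ε, rfl⟩, _, ⟨η, rfl⟩, rfl⟩

theorem SS_compact : IsCompact SS := by
  rw [SS_eq]
  apply isCompact_univ.image
  exact (TT_continuous.comp continuous_fst).sub (TT_continuous.comp continuous_snd)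

/-- prefixing a block -/
def pre (b0 b1 : Bool) (ε : ℕ → Bool) : ℕ → Bool
  | 0 => b0
  | 1 => b1
  | (n+2) => ε n

theorem TT_pre (b0 b1 : Bool) (ε : ℕ → Bool) :
    TT (pre b0 b1 ε) = (if b0 = true then 28/45 else 0) + (if b1 = true then 12/45 else 0) +
      (1/9) * TT ε := by
  rw [TT_rec]
  rfl

theorem mem_pre (b0 b1 c0 c1 : Bool) {z : ℝ} (hz : z ∈ SS) :
    ((if b0 = true then 28/45 else 0) + (if b1 = true then 12/45 else 0)
      - (if c0 = true then 28/45 else 0) - (if c1 = true then 12/45 else 0)) + (1/9) * z ∈ SS := by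
  obtain ⟨u, ⟨ε, rfl⟩, v, ⟨η, rfl⟩, rfl⟩ := hz
  refine ⟨_, ⟨pre b0 b1 ε, rfl⟩, _, ⟨pre c0 c1 η, rfl⟩, ?_⟩
  rw [TT_pre, TT_pre]
  ring

theorem zero_mem : (0:ℝ) ∈ SS := ⟨TT fun _ => false, ⟨_, rfl⟩, TT fun _ => false, ⟨_, rfl⟩, by ring⟩

/-- every integer is digit + 9 * integer, digit prefix stays in `SS` -/
theorem digit (m : ℤ) {z : ℝ} (hz : z ∈ SS) :
    ∃ n : ℤ, ∃ w ∈ SS, (4/45) * (m:ℝ) + (1/9) * z = w + (4/5) * (n:ℝ) := by
  -- 4/5 = 9 * 4/45
  have key : ∀ (b0 b1 c0 c1 : Bool) (d : ℤ),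
      (d : ℝ) = (if b0 = true then 7 else 0) + (if b1 = true then 3 else 0)
        - (if c0 = true then 7 else 0) - (if c1 = true then 3 else 0) → (9:ℤ) ∣ m - d →
      ∃ n : ℤ, ∃ w ∈ SS, (4/45) * (m:ℝ) + (1/9) * z = w + (4/5) * (n:ℝ) := by
    intro b0 b1 c0 c1 d hd ⟨n, hn⟩
    refine ⟨n, _, mem_pre b0 b1 c0 c1 hz, ?_⟩
    have hm : (m:ℝ) = d + 9 * n := by
      have : m = d + 9 * n := by linarith
      rw [this]; push_cast; ring
    rw [hm, hd]
    split_ifs <;> ring
  have h9 : m % 9 = 0 ∨ m % 9 = 1 ∨ m % 9 = 2 ∨ m % 9 = 3 ∨ m % 9 = 4 ∨ m % 9 = 5 ∨ m % 9 = 6 ∨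
    m % 9 = 7 ∨ m % 9 = 8 := by omega
  rcases h9 with h | h | h | h | h | h | h | h | h
  · exact key false false false false 0 (by norm_num) (by omega)
  · exact key true true false false 10 (by norm_num) (by omega)
  · exact key false false true false (-7) (by norm_num) (by omega)
  · exact key false true false false 3 (by norm_num) (by omega)
  · exact key true false false true 4 (by norm_num) (by omega)
  · exact key false true true false (-4) (by norm_num) (by omega)
  · exact key false false false true (-3) (by norm_num) (by omega)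
  · exact key true false false false 7 (by norm_num) (by omega)
  · exact key false false true true (-10) (by norm_num) (by omega)

theorem grid (K : ℕ) : ∀ m : ℤ, ∃ n : ℤ, ∃ w ∈ SS, (4/45) * (m:ℝ) / 9^K = w + (4/5) * (n:ℝ) := by
  induction K with
  | zero =>
    intro m
    obtain ⟨n, w, hw, h⟩ := digit m zero_mem
    exact ⟨n, w, hw, by rw [← h]; ring⟩
  | succ K ih =>
    intro m
    obtain ⟨n, w, hw, h⟩ := ih m
    obtain ⟨n', w', hw', h'⟩ := digit n hw
    refine ⟨n', w', hw', ?_⟩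
    rw [← h', pow_succ]
    have : (4/45) * (m:ℝ) / (9^K * 9) = (1/9) * ((4/45) * (m:ℝ) / 9^K) := by
      field_simp
    rw [this, h]
    ring

/-- the lattice `(4/5) ℤ` -/
def ZZ : Set ℝ := Set.range (fun n : ℤ => (4/5) * (n:ℝ))

theorem ZZ_closed : IsClosed ZZ := by
  have h : IsClosedEmbedding (fun n : ℤ => (4/5) * (n:ℝ)) := by
    have h1 : IsClosedEmbedding ((↑) : ℤ → ℝ) := Int.isClosedEmbedding_coe_real
    exact (Homeomorph.mulLeft₀ (4/5 : ℝ) (by norm_num)).isClosedEmbedding.comp h1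
  exact h.isClosed_range

theorem cover (y : ℝ) : ∃ n : ℤ, ∃ w ∈ SS, y = w + (4/5) * (n:ℝ) := by
  have hcl : IsClosed (ZZ + SS) := ZZ_closed.add_right_of_isCompact SS_compact
  have hy : y ∈ closure (ZZ + SS) := by
    rw [Metric.mem_closure_iff]
    intro ε hε
    obtain ⟨K, hK⟩ := exists_pow_lt_of_lt_one hε (show (1/9 : ℝ) < 1 by norm_num)
    set m : ℤ := ⌊y * (45/4) * 9^K⌋ with hm
    obtain ⟨n, w, hw, h⟩ := grid K m
    refine ⟨(4/5) * (n:ℝ) + w, Set.add_mem_add ⟨n, rfl⟩ hw, ?_⟩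
    rw [add_comm, ← h, Real.dist_eq]
    have h1 : (m:ℝ) ≤ y * (45/4) * 9^K := Int.floor_le _
    have h2 : y * (45/4) * 9^K < m + 1 := Int.lt_floor_add_one _
    have h9 : (0:ℝ) < 9^K := by positivity
    have e1 : (1/9 : ℝ)^K * 9^K = 1 := by rw [← mul_pow]; norm_num
    have h3 : y - 4/45 * (m:ℝ) / 9^K = (4/45) * ((y * (45/4) * 9^K - m) / 9^K) := by
      field_simp
    rw [h3, abs_of_nonneg (by apply mul_nonneg (by norm_num); apply div_nonneg (by linarith) h9.le)]
    have h4 : (y * (45/4) * 9^K - m) / 9^K ≤ (1/9:ℝ)^K := by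
      rw [div_le_iff₀ h9, e1]; linarith
    have h5 : (0:ℝ) < (1/9)^K := by positivity
    nlinarith
  rw [hcl.closure_eq] at hy
  obtain ⟨x, ⟨n, rfl⟩, w, hw, h⟩ := hy
  exact ⟨n, w, hw, by rw [← h]; simp [add_comm]⟩

theorem interior_nonempty : (interior SS).Nonempty := by
  have h := nonempty_interior_of_iUnion_of_closed (f := fun n : ℤ => (fun x : ℝ => x + (4/5) * (n:ℝ)) '' SS)
    (by
      intro n
      exact (SS_compact.image (by fun_prop)).isClosed)
    (by
      apply Set.eq_univ_of_forall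
      intro y
      obtain ⟨n, w, hw, h⟩ := cover y
      exact Set.mem_iUnion.2 ⟨n, w, hw, h.symm⟩)
  obtain ⟨n, x, hx⟩ := h
  have e : (fun x : ℝ => x + (4/5) * (n:ℝ)) '' SS = (Homeomorph.addRight ((4/5) * (n:ℝ))) '' SS := rfl
  rw [e, ← Homeomorph.image_interior] at hx
  obtain ⟨z, hz, -⟩ := hx
  exact ⟨z, hz⟩

/-! ### the gaps around zero -/

theorem TT_le (ε : ℕ → Bool) : 0 ≤ TT ε ∧ TT ε ≤ 1 := by
  constructor
  · apply tsum_nonneg
    intro n
    split_ifs
    · exact tt_nonneg n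
    · exact le_rfl
  · -- sup over all sequences via recursion
    have hbdd : BddAbove (Set.range TT) := by
      have : IsCompact (Set.range TT) := isCompact_range TT_continuous
      exact this.bddAbove
    have hne : (Set.range TT).Nonempty := ⟨_, ⟨fun _ => false, rfl⟩⟩
    set M := sSup (Set.range TT) with hM
    have h1 : ∀ ε, TT ε ≤ M := fun ε => le_csSup hbdd ⟨ε, rfl⟩
    have h2 : M ≤ 40/45 + (1/9) * M := by
      apply csSup_le hne
      rintro _ ⟨η, rfl⟩
      rw [TT_rec]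
      have := h1 (fun n => η (n+2))
      split_ifs <;> linarith
    have := h1 ε
    linarith

theorem gap (k : ℕ) : ∀ z ∈ SS, ¬ ((1/9) * (1/9)^k < |z| ∧ |z| < (7/45) * (1/9)^k) := by
  induction k with
  | zero =>
    rintro z ⟨u, ⟨ε, rfl⟩, v, ⟨η, rfl⟩, rfl⟩ ⟨h1, h2⟩
    rw [TT_rec ε, TT_rec η] at h1 h2
    have a1 := TT_le (fun n => ε (n+2))
    have a2 := TT_le (fun n => η (n+2))
    rw [lt_abs] at h1
    rw [abs_lt] at h2
    split_ifs at h1 h2 <;> rcases h1 with h1 | h1 <;> linarith [h2.1, h2.2]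
  | succ k ih =>
    rintro z ⟨u, ⟨ε, rfl⟩, v, ⟨η, rfl⟩, rfl⟩ ⟨h1, h2⟩
    have ih' := ih (TT (fun n => ε (n+2)) - TT (fun n => η (n+2)))
      ⟨_, ⟨_, rfl⟩, _, ⟨_, rfl⟩, rfl⟩
    rw [TT_rec ε, TT_rec η] at h1 h2
    have a1 := TT_le (fun n => ε (n+2))
    have a2 := TT_le (fun n => η (n+2))
    have hk : ((1:ℝ)/9)^(k+1) ≤ 1/9 := by
      rw [pow_succ]
      have : ((1:ℝ)/9)^k ≤ 1 := pow_le_one₀ (by norm_num) (by norm_num)
      linarith
    have hk0 : (0:ℝ) < ((1:ℝ)/9)^(k+1) := by positivity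
    by_cases h00 : (ε 0 = η 0) ∧ (ε 1 = η 1)
    · rw [h00.1, h00.2] at h1 h2
      apply ih'
      have e : ((if η 0 = true then 28 / 45 else 0) + if η 1 = true then 12 / 45 else 0) + 1 / 9 * TT (fun n ↦ ε (n + 2)) -
          ((((if η 0 = true then 28 / 45 else 0) + if η 1 = true then 12 / 45 else 0)) + 1 / 9 * TT fun n ↦ η (n + 2)) =
          (1/9) * (TT (fun n => ε (n+2)) - TT (fun n => η (n+2))) := by ring
      rw [e, abs_mul, abs_of_pos (show (0:ℝ) < 1/9 by norm_num), pow_succ] at h1 h2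
      constructor <;> linarith
    · rw [abs_lt] at h2
      rcases hε0 : ε 0 with _ | _ <;> rcases hε1 : ε 1 with _ | _ <;>
        rcases hη0 : η 0 with _ | _ <;> rcases hη1 : η 1 with _ | _ <;>
        rw [hε0, hε1, hη0, hη1] at h2 h00 <;>
        first
        | (exact absurd ⟨rfl, rfl⟩ h00)
        | (norm_num at h2; linarith [h2.1, h2.2])

theorem zero_not_mem : (0:ℝ) ∉ interior SS := by
  intro h
  rw [mem_interior_iff_mem_nhds, Metric.mem_nhds_iff] at h
  obtain ⟨δ, hδ, hb⟩ := h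
  obtain ⟨k, hk⟩ := exists_pow_lt_of_lt_one hδ (show (1/9 : ℝ) < 1 by norm_num)
  have hk0 : (0:ℝ) < ((1:ℝ)/9)^k := by positivity
  have hz : (2/15) * ((1:ℝ)/9)^k ∈ SS := by
    apply hb
    rw [Metric.mem_ball, Real.dist_eq, sub_zero, abs_of_pos (by positivity)]
    linarith
  apply gap k _ hz
  rw [abs_of_pos (by positivity)]
  constructor <;> linarith

end Pool.Agent.H330R3.CantorDiff
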