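import Mathlib

set_option autoImplicit false

namespace Pool.Agent.H330R3.PEnergy

open Matrix Polynomial

section blowup
variable {V R : Type} [Fintype V] [DecidableEq V] [Fintype R] [DecidableEq R]

/-- class indicator matrix -/
def ind (c : V → R) : Matrix V R ℝ := Matrix.of fun x i => if c x = i then 1 else 0

theorem submatrix_eq (c : V → R) (M : Matrix R R ℝ) :
    M.submatrix c c = ind c * (M * (ind c)ᵀ) := by
  ext x y
  simp [ind, Matrix.mul_apply]

theorem gram_eq (c : V → R) :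
    (ind c)ᵀ * ind c = Matrix.diagonal (fun i => ((Finset.univ.filter (fun x => c x = i)).card : ℝ)) := by
  ext i j
  rw [Matrix.mul_apply]
  by_cases h : i = j
  · subst h
    rw [Matrix.diagonal_apply_eq]
    have : ∀ x, (ind c)ᵀ i x * ind c x i = if c x = i then (1:ℝ) else 0 := by
      intro x
      by_cases h1 : c x = i <;> simp [ind, h1]
    simp only [this]
    rw [Finset.sum_boole]
  · rw [Matrix.diagonal_apply_ne _ h]
    apply Finset.sum_eq_zero
    intro x _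
    by_cases h1 : c x = i
    · have : c x ≠ j := fun h2 => h (h1.symm.trans h2)
      simp [ind, this]
    · simp [ind, h1]

theorem blowup_charpoly (c : V → R) (M : Matrix R R ℝ) :
    (X : ℝ[X]) ^ (Fintype.card R) * (M.submatrix c c).charpoly =
      X ^ (Fintype.card V) *
        (M * Matrix.diagonal
          (fun i => ((Finset.univ.filter (fun x => c x = i)).card : ℝ))).charpoly := by
  rw [submatrix_eq, Matrix.charpoly_mul_comm', Matrix.mul_assoc, gram_eq]

end blowup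

/-- multiset of positive roots -/
noncomputable def posr (p : ℝ[X]) : Multiset ℝ := p.roots.filter (fun x => 0 < x)

theorem posr_mul {p q : ℝ[X]} (h : p * q ≠ 0) : posr (p * q) = posr p + posr q := by
  unfold posr
  rw [Polynomial.roots_mul h, Multiset.filter_add]

theorem posr_X_pow (k : ℕ) : posr ((X : ℝ[X]) ^ k) = 0 := by
  unfold posr
  rw [Polynomial.roots_pow, Polynomial.roots_X, Multiset.filter_eq_nil]
  intro a ha
  rw [Multiset.mem_nsmul] at ha
  have := ha.2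
  simp at this
  simp [this]

theorem posr_X_pow_mul (k : ℕ) {p : ℝ[X]} (h : p ≠ 0) : posr (X ^ k * p) = posr p := by
  rw [posr_mul (mul_ne_zero (pow_ne_zero _ X_ne_zero) h), posr_X_pow, zero_add]

theorem posr_blowup {V R : Type} [Fintype V] [DecidableEq V] [Fintype R] [DecidableEq R]
    (c : V → R) (M : Matrix R R ℝ) :
    posr (M.submatrix c c).charpoly =
      posr (M * Matrix.diagonal
          (fun i => ((Finset.univ.filter (fun x => c x = i)).card : ℝ))).charpoly := by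
  have h := congrArg posr (blowup_charpoly c M)
  rw [posr_X_pow_mul _ (Matrix.charpoly_monic _).ne_zero,
    posr_X_pow_mul _ (Matrix.charpoly_monic _).ne_zero] at h
  exact h

/-- swap-symmetric block matrices -/
theorem charpoly_swap {m : Type} [Fintype m] [DecidableEq m] (A B : Matrix m m ℝ) :
    (fromBlocks A B B A).charpoly = (A + B).charpoly * (A - B).charpoly := by
  have h2 : (fromBlocks (1 : Matrix m m ℝ) (1 : Matrix m m ℝ) (1 : Matrix m m ℝ) (-1 : Matrix m m ℝ)) * ((1/2 : ℝ) • fromBlocks (1 : Matrix m m ℝ) (1 : Matrix m m ℝ) (1 : Matrix m m ℝ) (-1 : Matrix m m ℝ)) = 1 := by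
    rw [Matrix.mul_smul, fromBlocks_multiply]
    simp only [Matrix.mul_one, Matrix.one_mul, Matrix.neg_mul, Matrix.mul_neg, neg_neg]
    rw [fromBlocks_smul, ← fromBlocks_one]
    congr 1
    · rw [← two_smul ℝ (1 : Matrix m m ℝ), smul_smul]; norm_num
    · simp
    · simp
    · rw [← two_smul ℝ (1 : Matrix m m ℝ), smul_smul]; norm_num
  have h3 : ((1/2 : ℝ) • fromBlocks (1 : Matrix m m ℝ) (1 : Matrix m m ℝ) (1 : Matrix m m ℝ) (-1 : Matrix m m ℝ)) * (fromBlocks (1 : Matrix m m ℝ) (1 : Matrix m m ℝ) (1 : Matrix m m ℝ) (-1 : Matrix m m ℝ)) = 1 := by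
    rw [Matrix.smul_mul, ← Matrix.mul_smul, h2]
  have key : fromBlocks A B B A * fromBlocks (1 : Matrix m m ℝ) (1 : Matrix m m ℝ) (1 : Matrix m m ℝ) (-1 : Matrix m m ℝ) =
      fromBlocks (1 : Matrix m m ℝ) (1 : Matrix m m ℝ) (1 : Matrix m m ℝ) (-1 : Matrix m m ℝ) * fromBlocks (A + B) 0 0 (A - B) := by
    rw [fromBlocks_multiply, fromBlocks_multiply]
    simp only [Matrix.mul_one, Matrix.one_mul, Matrix.neg_mul, Matrix.mul_neg, Matrix.mul_zero,
      add_zero, zero_add]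
    congr 1
    · abel
    · abel
  have h4 : fromBlocks A B B A = fromBlocks (1 : Matrix m m ℝ) (1 : Matrix m m ℝ) (1 : Matrix m m ℝ) (-1 : Matrix m m ℝ) *
      (fromBlocks (A + B) 0 0 (A - B) * ((1/2 : ℝ) • fromBlocks (1 : Matrix m m ℝ) (1 : Matrix m m ℝ) (1 : Matrix m m ℝ) (-1 : Matrix m m ℝ))) := by
    rw [← Matrix.mul_assoc, ← key, Matrix.mul_assoc, h2, Matrix.mul_one]
  rw [h4, Matrix.charpoly_mul_comm, Matrix.mul_assoc, h3, Matrix.mul_one,
    Matrix.charpoly_fromBlocks_zero₁₂]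

/-- Vieta for three distinct roots. -/
theorem vieta3 {a b c r s t : ℝ} (hr : r^3 + a*r^2 + b*r + c = 0) (hs : s^3 + a*s^2 + b*s + c = 0)
    (ht : t^3 + a*t^2 + b*t + c = 0) (hrs : r ≠ s) (hrt : r ≠ t) (hst : s ≠ t) :
    r + s + t = -a ∧ r*s + r*t + s*t = b ∧ r*s*t = -c := by
  have e1 : r^2 + r*s + s^2 + a*(r+s) + b = 0 := by
    apply mul_left_cancel₀ (sub_ne_zero.2 hrs)
    linear_combination hr - hs
  have e2 : r^2 + r*t + t^2 + a*(r+t) + b = 0 := by
    apply mul_left_cancel₀ (sub_ne_zero.2 hrt)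
    linear_combination hr - ht
  have e3 : r + s + t + a = 0 := by
    apply mul_left_cancel₀ (sub_ne_zero.2 hst)
    linear_combination e1 - e2
  refine ⟨by linarith, ?_, ?_⟩
  · linear_combination (r + s) * e3 - e1
  · linear_combination (r + s) * e3 * r - e1 * r + hr - r^2 * e3 

theorem cubic_factor {a b c r s t : ℝ} (hr : r^3 + a*r^2 + b*r + c = 0) (hs : s^3 + a*s^2 + b*s + c = 0)
    (ht : t^3 + a*t^2 + b*t + c = 0) (hrs : r ≠ s) (hrt : r ≠ t) (hst : s ≠ t) :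
    (X : ℝ[X])^3 + C a * X^2 + C b * X + C c = (X - C r) * (X - C s) * (X - C t) := by
  obtain ⟨h1, h2, h3⟩ := vieta3 hr hs ht hrs hrt hst
  have ha : a = -(r+s+t) := by linarith
  have hc : c = -(r*s*t) := by linarith
  rw [ha, ← h2, hc]
  simp only [map_neg, map_add, map_mul]
  ring

theorem posr_three {r s t : ℝ} (hr : 0 < r) (hs : 0 < s) (ht : t < 0) :
    posr ((X - C r) * (X - C s) * (X - C t)) = {r} + {s} := by
  have n1 : (X - C r) * (X - C s) * (X - C t) ≠ 0 :=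
    mul_ne_zero (mul_ne_zero (X_sub_C_ne_zero _) (X_sub_C_ne_zero _)) (X_sub_C_ne_zero _)
  have n2 : (X - C r) * (X - C s) ≠ 0 := mul_ne_zero (X_sub_C_ne_zero _) (X_sub_C_ne_zero _)
  rw [posr_mul n1, posr_mul n2]
  unfold posr
  simp only [roots_X_sub_C]
  rw [Multiset.filter_singleton, Multiset.filter_singleton, Multiset.filter_singleton]
  simp [hr, hs, not_lt.2 ht.le]

theorem posr_three' {r s t : ℝ} (hr : 0 < r) (hs : 0 < s) (ht : t < 0) :
    posr ((X - C (-r)) * (X - C (-s)) * (X - C (-t))) = {-t} := by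
  have n1 : (X - C (-r)) * (X - C (-s)) * (X - C (-t)) ≠ 0 :=
    mul_ne_zero (mul_ne_zero (X_sub_C_ne_zero _) (X_sub_C_ne_zero _)) (X_sub_C_ne_zero _)
  have n2 : (X - C (-r)) * (X - C (-s)) ≠ 0 := mul_ne_zero (X_sub_C_ne_zero _) (X_sub_C_ne_zero _)
  rw [posr_mul n1, posr_mul n2]
  unfold posr
  simp only [roots_X_sub_C]
  rw [Multiset.filter_singleton, Multiset.filter_singleton, Multiset.filter_singleton]
  have h1 : ¬ (0 < -r) := by linarith
  have h2 : ¬ (0 < -s) := by linarith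
  have h3 : (0 < -t) := by linarith
  simp only [h1, h2, h3, if_true, if_false]
  simp

/-- integer quotient adjacency, with the edge between the two singleton classes present iff e = 1 -/
def KK : Matrix (Fin 3) (Fin 3) ℕ := !![0,1,0;1,0,1;0,1,0]
def LL (e : ℕ) : Matrix (Fin 3) (Fin 3) ℕ := !![e,0,0;0,0,0;0,0,1]
def NN (e : ℕ) : Matrix (Fin 3 ⊕ Fin 3) (Fin 3 ⊕ Fin 3) ℕ := fromBlocks KK (LL e) (LL e) KK

def MM (e : ℕ) : Matrix (Fin 3 ⊕ Fin 3) (Fin 3 ⊕ Fin 3) ℝ := (NN e).map (Nat.cast : ℕ → ℝ)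

def cls (x : Fin 82) : Fin 3 ⊕ Fin 3 :=
  if x.val = 0 then Sum.inl 0 else if x.val ≤ 20 then Sum.inl 1 else if x.val ≤ 40 then Sum.inl 2
  else if x.val ≤ 60 then Sum.inr 2 else if x.val ≤ 80 then Sum.inr 1 else Sum.inr 0

def ww : Fin 3 ⊕ Fin 3 → ℝ := Sum.elim ![1,20,20] ![1,20,20]

theorem card_cls (i : Fin 3 ⊕ Fin 3) :
    ((Finset.univ.filter (fun x => cls x = i)).card : ℝ) = ww i := by
  have h : ∀ i : Fin 3 ⊕ Fin 3, (Finset.univ.filter (fun x => cls x = i)).card =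
      Sum.elim (![1,20,20] : Fin 3 → ℕ) (![1,20,20] : Fin 3 → ℕ) i := by decide
  rw [h i]
  rcases i with i | i <;> fin_cases i <;> simp [ww]

theorem quot_eq (e : ℕ) : MM e * Matrix.diagonal ww =
    fromBlocks (!![0,20,0;1,0,20;0,20,0] : Matrix (Fin 3) (Fin 3) ℝ) (!![(e:ℝ),0,0;0,0,0;0,0,20])
      (!![(e:ℝ),0,0;0,0,0;0,0,20]) (!![0,20,0;1,0,20;0,20,0]) := by
  ext i j
  rw [Matrix.mul_diagonal]
  rcases i with i | i <;> rcases j with j | j <;> fin_cases i <;> fin_cases j <;>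
    simp [MM, NN, KK, LL, ww]

theorem charpoly_plus (e : ℝ) :
    ((!![0,20,0;1,0,20;0,20,0] : Matrix (Fin 3) (Fin 3) ℝ) + (!![e,0,0;0,0,0;0,0,20])).charpoly
      = X^3 + C (-(20+e)) * X^2 + C (20*e - 420) * X + C (400 + 400*e) := by
  rw [Matrix.charpoly, Matrix.det_fin_three]
  simp
  have : (C (420:ℝ)) = C 20 * C 20 + C 20 := by rw [← map_mul, ← map_add]; norm_num
  have h4 : (C (400:ℝ)) = C 20 * C 20 := by rw [← map_mul]; norm_num
  rw [this, h4]
  ring

theorem charpoly_minus (e : ℝ) :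
    ((!![0,20,0;1,0,20;0,20,0] : Matrix (Fin 3) (Fin 3) ℝ) - (!![e,0,0;0,0,0;0,0,20])).charpoly
      = X^3 + C ((20+e)) * X^2 + C (20*e - 420) * X + C (-(400 + 400*e)) := by
  rw [Matrix.charpoly, Matrix.det_fin_three]
  simp
  have : (C (420:ℝ)) = C 20 * C 20 + C 20 := by rw [← map_mul, ← map_add]; norm_num
  have h4 : (C (400:ℝ)) = C 20 * C 20 := by rw [← map_mul]; norm_num
  rw [this, h4]
  ring

/-- existence of a root of a real cubic in an open interval with a sign change -/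
theorem cubic_root (a b c l u : ℝ) (hlu : l ≤ u)
    (h : (l^3 + a*l^2 + b*l + c) * (u^3 + a*u^2 + b*u + c) < 0) :
    ∃ r, l < r ∧ r < u ∧ r^3 + a*r^2 + b*r + c = 0 := by
  have hc : ContinuousOn (fun x : ℝ => x^3 + a*x^2 + b*x + c) (Set.Icc l u) := by fun_prop
  rcases lt_trichotomy (l^3 + a*l^2 + b*l + c) 0 with h1 | h1 | h1
  · have h2 : 0 < u^3 + a*u^2 + b*u + c := by
      by_contra hh
      push Not at hh
      nlinarith [mul_nonneg_of_nonpos_of_nonpos h1.le hh]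
    have := intermediate_value_Ioo hlu hc
    obtain ⟨r, hr, hr2⟩ := this ⟨h1, h2⟩
    exact ⟨r, hr.1, hr.2, hr2⟩
  · rw [h1] at h; simp at h
  · have h2 : u^3 + a*u^2 + b*u + c < 0 := by
      by_contra hh
      push Not at hh
      nlinarith [mul_nonneg h1.le hh]
    have := intermediate_value_Ioo' hlu hc
    obtain ⟨r, hr, hr2⟩ := this ⟨h2, h1⟩
    exact ⟨r, hr.1, hr.2, hr2⟩

theorem posr_MM (e : ℕ) {r s t : ℝ} (hr : 0 < r) (hs : 0 < s) (ht : t < 0) (hrs : r ≠ s)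
    (qr : r^3 + (-(20+(e:ℝ)))*r^2 + (20*(e:ℝ)-420)*r + (400+400*(e:ℝ)) = 0)
    (qs : s^3 + (-(20+(e:ℝ)))*s^2 + (20*(e:ℝ)-420)*s + (400+400*(e:ℝ)) = 0)
    (qt : t^3 + (-(20+(e:ℝ)))*t^2 + (20*(e:ℝ)-420)*t + (400+400*(e:ℝ)) = 0) :
    posr ((MM e).submatrix cls cls).charpoly = {r} + {s} + {-t} := by
  have hrt : r ≠ t := ne_of_gt (lt_trans ht hr)
  have hst : s ≠ t := ne_of_gt (lt_trans ht hs)
  rw [posr_blowup]
  simp only [card_cls]
  have e1 := quot_eq e
  have e2 : MM e * Matrix.diagonal (fun i => ww i) = MM e * Matrix.diagonal ww := rfl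
  rw [e2, e1, charpoly_swap, charpoly_plus, charpoly_minus]
  have f1 := cubic_factor qr qs qt hrs hrt hst
  have f2 : (X:ℝ[X])^3 + C ((20+(e:ℝ))) * X^2 + C (20*(e:ℝ) - 420) * X + C (-(400 + 400*(e:ℝ)))
      = (X - C (-r)) * (X - C (-s)) * (X - C (-t)) := by
    apply cubic_factor
    · linear_combination -qr
    · linear_combination -qs
    · linear_combination -qt
    · exact fun h => hrs (neg_injective h)
    · exact fun h => hrt (neg_injective h)
    · exact fun h => hst (neg_injective h)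
  rw [f1, f2, posr_mul, posr_three hr hs ht, posr_three' hr hs ht]
  refine mul_ne_zero (mul_ne_zero (mul_ne_zero (X_sub_C_ne_zero _) (X_sub_C_ne_zero _)) (X_sub_C_ne_zero _))
    (mul_ne_zero (mul_ne_zero (X_sub_C_ne_zero _) (X_sub_C_ne_zero _)) (X_sub_C_ne_zero _))

def nn (e : ℕ) (p q : Fin 3 ⊕ Fin 3) : ℕ := NN e p q

/-- the counterexample graph: blow-up of the path `P_6` with class sizes 1,20,20,20,20,1 -/
def GG : SimpleGraph (Fin 82) where
  Adj x y := nn 0 (cls x) (cls y) = 1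
  symm := by
    have h : ∀ p q, nn 0 p q = 1 → nn 0 q p = 1 := by decide
    exact ⟨fun x y hxy => h _ _ hxy⟩
  loopless := by
    have h : ∀ p, ¬ nn 0 p p = 1 := by decide
    exact ⟨fun x hx => h _ hx⟩

theorem adj_GG (x y : Fin 82) [Decidable (GG.Adj x y)] :
    (if GG.Adj x y then (1:ℝ) else 0) = (MM 0).submatrix cls cls x y := by
  have h : ∀ p q, nn 0 p q = 0 ∨ nn 0 p q = 1 := by decide
  rw [Matrix.submatrix_apply, MM, Matrix.map_apply]
  change _ = ((nn 0 (cls x) (cls y) : ℕ) : ℝ)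
  rcases h (cls x) (cls y) with h1 | h1
  · have : ¬ GG.Adj x y := by show ¬ (nn 0 (cls x) (cls y) = 1); rw [h1]; norm_num
    rw [if_neg this, h1]; simp
  · have : GG.Adj x y := h1
    rw [if_pos this, h1]; simp

theorem adj_GG_edge (x y : Fin 82) [Decidable ((GG ⊔ SimpleGraph.edge 0 81).Adj x y)] :
    (if (GG ⊔ SimpleGraph.edge 0 81).Adj x y then (1:ℝ) else 0) = (MM 1).submatrix cls cls x y := by
  have h : ∀ p q, nn 1 p q = 0 ∨ nn 1 p q = 1 := by decide
  have h2 : ∀ p q, nn 1 p q = 1 ↔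
      (nn 0 p q = 1 ∨ (p = Sum.inl 0 ∧ q = Sum.inr 0) ∨ (p = Sum.inr 0 ∧ q = Sum.inl 0)) := by
    decide
  have h3 : ∀ x : Fin 82, cls x = Sum.inl 0 ↔ x = 0 := by decide
  have h4 : ∀ x : Fin 82, cls x = Sum.inr 0 ↔ x = 81 := by decide
  have h5 : (GG ⊔ SimpleGraph.edge 0 81).Adj x y ↔ nn 1 (cls x) (cls y) = 1 := by
    rw [SimpleGraph.sup_adj, SimpleGraph.edge_adj, h2, h3, h4, h3, h4]
    constructor
    · rintro (h | h)
      · left; exact h
      · right; exact h.1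
    · rintro (h | h)
      · left; exact h
      · right
        refine ⟨h, ?_⟩
        rcases h with ⟨h1, h2⟩ | ⟨h1, h2⟩
        · rw [h1, h2]; decide
        · rw [h1, h2]; decide
  rw [Matrix.submatrix_apply, MM, Matrix.map_apply]
  change _ = ((nn 1 (cls x) (cls y) : ℕ) : ℝ)
  rcases h (cls x) (cls y) with h1 | h1
  · have : ¬ (GG ⊔ SimpleGraph.edge 0 81).Adj x y := by rw [h5, h1]; norm_num
    rw [if_neg this, h1]; simp
  · have : (GG ⊔ SimpleGraph.edge 0 81).Adj x y := h5.2 h1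
    rw [if_pos this, h1]; simp

theorem cube_bound {x l u : ℝ} (hl : 0 ≤ l) (h1 : l ≤ x) (h2 : x ≤ u) : l^3 ≤ x^3 ∧ x^3 ≤ u^3 :=
  ⟨pow_le_pow_left₀ hl h1 3, pow_le_pow_left₀ (hl.trans h1) h2 3⟩

/-- The energy drops. -/
theorem drop :
    ((posr ((MM 1).submatrix cls cls).charpoly).map (fun x => x ^ (3:ℝ))).sum <
      ((posr ((MM 0).submatrix cls cls).charpoly).map (fun x => x ^ (3:ℝ))).sum := by
  obtain ⟨r, r1, r2, qr⟩ := cubic_root (-(20+((0:ℕ):ℝ))) (20*((0:ℕ):ℝ)-420) (400+400*((0:ℕ):ℝ)) 32.532 32.533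
    (by norm_num) (by norm_num)
  obtain ⟨s, s1, s2, qs⟩ := cubic_root (-(20+((0:ℕ):ℝ))) (20*((0:ℕ):ℝ)-420) (400+400*((0:ℕ):ℝ)) 0.914 0.915
    (by norm_num) (by norm_num)
  obtain ⟨t, t1, t2, qt⟩ := cubic_root (-(20+((0:ℕ):ℝ))) (20*((0:ℕ):ℝ)-420) (400+400*((0:ℕ):ℝ)) (-13.447) (-13.446)
    (by norm_num) (by norm_num)
  obtain ⟨r', r1', r2', qr'⟩ := cubic_root (-(20+((1:ℕ):ℝ))) (20*((1:ℕ):ℝ)-420) (400+400*((1:ℕ):ℝ)) 32.537 32.538
    (by norm_num) (by norm_num)
  obtain ⟨s', s1', s2', qs'⟩ := cubic_root (-(20+((1:ℕ):ℝ))) (20*((1:ℕ):ℝ)-420) (400+400*((1:ℕ):ℝ)) 1.838 1.839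
    (by norm_num) (by norm_num)
  obtain ⟨t', t1', t2', qt'⟩ := cubic_root (-(20+((1:ℕ):ℝ))) (20*((1:ℕ):ℝ)-420) (400+400*((1:ℕ):ℝ)) (-13.376) (-13.375)
    (by norm_num) (by norm_num)
  rw [posr_MM 0 (by linarith) (by linarith) (by linarith) (by intro h; linarith) qr qs qt,
    posr_MM 1 (by linarith) (by linarith) (by linarith) (by intro h; linarith) qr' qs' qt']
  simp only [Multiset.map_add, Multiset.map_singleton, Multiset.sum_add, Multiset.sum_singleton]
  have e3 : ∀ x : ℝ, x ^ (3:ℝ) = x^3 := fun x => by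
    rw [← Real.rpow_natCast]; norm_num
  rw [e3, e3, e3, e3, e3, e3]
  have a1 := (cube_bound (by norm_num) r1.le r2.le).1
  have a2 := (cube_bound (by norm_num) s1.le s2.le).1
  have a3 := (cube_bound (x := -t) (l := 13.446) (u := 13.447) (by norm_num) (by linarith) (by linarith)).1
  have b1 := (cube_bound (by norm_num) r1'.le r2'.le).2
  have b2 := (cube_bound (by norm_num) s1'.le s2'.le).2
  have b3 := (cube_bound (x := -t') (l := 13.375) (u := 13.376) (by norm_num) (by linarith) (by linarith)).2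
  norm_num at a1 a2 a3 b1 b2 b3
  linarith

end Pool.Agent.H330R3.PEnergy
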